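import Mathlib

set_option autoImplicit false

namespace Pool.Agent.Results.MP_e67bad_co.AllDimensions

/-- Solutions in the box `[-b,b]^n` of `v · x = t`. -/
noncomputable def sols {n : ℕ} (b : ℤ) (v : Fin n → ℤ) (t : ℤ) : Finset (Fin n → ℤ) :=
  (Fintype.piFinset fun _ : Fin n => Finset.Icc (-b) b).filter (fun x => ∑ i, v i * x i = t)

theorem mem_sols {n : ℕ} (b : ℤ) (v : Fin n → ℤ) (t : ℤ) (x : Fin n → ℤ) :
    x ∈ sols b v t ↔ (∀ i, -b ≤ x i ∧ x i ≤ b) ∧ ∑ i, v i * x i = t := by
  simp [sols, Fintype.mem_piFinset, Finset.mem_Icc]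

/-- No nonzero integer point of `[-(b-1),b-1]^n` on the hyperplane with normal `v`. -/
def good {n : ℕ} (b : ℤ) (v : Fin n → ℤ) : Prop :=
  ∀ x : Fin n → ℤ, (∀ i, |x i| < b) → ∑ i, v i * x i = 0 → x = 0

/-- The vector `(u, b v)`. -/
def ext {n : ℕ} (b u : ℤ) (v : Fin n → ℤ) : Fin (n + 1) → ℤ :=
  Fin.cons u (fun i => b * v i)

theorem sum_ext {n : ℕ} (b u : ℤ) (v : Fin n → ℤ) (x : Fin (n + 1) → ℤ) :
    ∑ i, ext b u v i * x i = u * x 0 + b * ∑ i, v i * x i.succ := by
  rw [Fin.sum_univ_succ, Finset.mul_sum]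
  simp [ext, mul_assoc]

theorem good_ext {n : ℕ} {b u : ℤ} (hb : 0 < b) (hu : IsCoprime b u) {v : Fin n → ℤ}
    (hv : good b v) : good b (ext b u v) := by
  intro x hx hs
  rw [sum_ext] at hs
  have hdvd : b ∣ u * x 0 := by
    have : u * x 0 = b * (-(∑ i, v i * x i.succ)) := by linarith
    exact ⟨_, this⟩
  have h0 : b ∣ x 0 := hu.dvd_of_dvd_mul_left hdvd
  have hx0 : x 0 = 0 := Int.eq_zero_of_abs_lt_dvd h0 (hx 0)
  rw [hx0] at hs
  have hs' : ∑ i, v i * x i.succ = 0 := by
    have : b * ∑ i, v i * x i.succ = 0 := by linarith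
    rcases mul_eq_zero.mp this with h | h
    · omega
    · exact h
  have ht := hv (fun i => x i.succ) (fun i => hx i.succ) hs'
  funext i
  refine Fin.cases ?_ ?_ i
  · exact hx0
  · intro j
    exact congrFun ht j

theorem cons_inj {n : ℕ} (y : ℤ) : Function.Injective
    (fun x : Fin n → ℤ => (Fin.cons y x : Fin (n + 1) → ℤ)) := by
  intro x x' h
  exact Fin.cons_right_injective (α := fun _ => ℤ) y h

theorem cons_mem {n : ℕ} {b u : ℤ} {v : Fin n → ℤ} {y t t' : ℤ} (hy : -b ≤ y ∧ y ≤ b)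
    (ht : u * y + b * t = t') {x : Fin n → ℤ} (hx : x ∈ sols b v t) :
    (Fin.cons y x : Fin (n + 1) → ℤ) ∈ sols b (ext b u v) t' := by
  rw [mem_sols] at hx ⊢
  refine ⟨?_, ?_⟩
  · intro i
    refine Fin.cases ?_ ?_ i
    · simpa using hy
    · intro j
      simpa using hx.1 j
  · rw [sum_ext]
    simp only [Fin.cons_zero, Fin.cons_succ]
    rw [hx.2]
    exact ht

theorem neg_card {n : ℕ} (b : ℤ) (v : Fin n → ℤ) (t : ℤ) :
    (sols b v (-t)).card = (sols b v t).card := by
  apply Finset.card_bij (fun x _ => -x)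
  · intro x hx
    rw [mem_sols] at hx ⊢
    refine ⟨fun i => ?_, ?_⟩
    · have := hx.1 i
      simp only [Pi.neg_apply]
      constructor <;> linarith
    · have h2 := hx.2
      simp only [Pi.neg_apply, mul_neg, Finset.sum_neg_distrib]
      rw [h2]; ring
  · intro x _ x' _ h
    exact neg_injective h
  · intro x hx
    refine ⟨-x, ?_, by simp⟩
    rw [mem_sols] at hx ⊢
    refine ⟨fun i => ?_, ?_⟩
    · have := hx.1 i
      simp only [Pi.neg_apply]
      constructor <;> linarith
    · have h2 := hx.2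
      simp only [Pi.neg_apply, mul_neg, Finset.sum_neg_distrib]
      rw [h2]

theorem image_disj {n : ℕ} {y y' : ℤ} (h : y ≠ y') (A B : Finset (Fin n → ℤ)) :
    Disjoint (A.image (fun x => (Fin.cons y x : Fin (n + 1) → ℤ)))
      (B.image (fun x => (Fin.cons y' x : Fin (n + 1) → ℤ))) := by
  rw [Finset.disjoint_left]
  intro z hz hz'
  rw [Finset.mem_image] at hz hz'
  obtain ⟨x, _, rfl⟩ := hz
  obtain ⟨x', _, h'⟩ := hz'
  have := congrFun h' 0
  simp at this
  exact h this.symm

/-- `N(0) ≥ N'(0) + 2 N'(u)`. -/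
theorem step_zero {n : ℕ} {b u : ℤ} (hb : 2 < b) (v : Fin n → ℤ) :
    (sols b v 0).card + 2 * (sols b v u).card ≤ (sols b (ext b u v) 0).card := by
  classical
  let A := (sols b v 0).image (fun x => (Fin.cons 0 x : Fin (n + 1) → ℤ))
  let B := (sols b v (-u)).image (fun x => (Fin.cons b x : Fin (n + 1) → ℤ))
  let C := (sols b v u).image (fun x => (Fin.cons (-b) x : Fin (n + 1) → ℤ))
  have hA : A.card = (sols b v 0).card := Finset.card_image_of_injective _ (cons_inj 0)
  have hB : B.card = (sols b v u).card := by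
    rw [← neg_card]
    exact Finset.card_image_of_injective _ (cons_inj b)
  have hC : C.card = (sols b v u).card := Finset.card_image_of_injective _ (cons_inj (-b))
  have hAB : Disjoint A B := image_disj (by omega) _ _
  have hABC : Disjoint (A ∪ B) C := by
    rw [Finset.disjoint_union_left]
    exact ⟨image_disj (by omega) _ _, image_disj (by omega) _ _⟩
  have hsub : (A ∪ B) ∪ C ⊆ sols b (ext b u v) 0 := by
    intro z hz
    simp only [A, B, C, Finset.mem_union, Finset.mem_image] at hz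
    rcases hz with (⟨x, hx, rfl⟩ | ⟨x, hx, rfl⟩) | ⟨x, hx, rfl⟩
    · exact cons_mem (by constructor <;> omega) (by ring) hx
    · exact cons_mem (by constructor <;> omega) (by ring) hx
    · exact cons_mem (by constructor <;> omega) (by ring) hx
  have := Finset.card_le_card hsub
  rw [Finset.card_union_of_disjoint hABC, Finset.card_union_of_disjoint hAB, hA, hB, hC] at this
  omega

/-- `N(u) ≥ N'(0) + N'(u)`. -/
theorem step_u {n : ℕ} {b u : ℤ} (hb : 2 < b) (v : Fin n → ℤ) :
    (sols b v 0).card + (sols b v u).card ≤ (sols b (ext b u v) u).card := by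
  classical
  let A := (sols b v 0).image (fun x => (Fin.cons 1 x : Fin (n + 1) → ℤ))
  let B := (sols b v u).image (fun x => (Fin.cons (1 - b) x : Fin (n + 1) → ℤ))
  have hA : A.card = (sols b v 0).card := Finset.card_image_of_injective _ (cons_inj 1)
  have hB : B.card = (sols b v u).card := Finset.card_image_of_injective _ (cons_inj (1 - b))
  have hAB : Disjoint A B := image_disj (by omega) _ _
  have hsub : A ∪ B ⊆ sols b (ext b u v) u := by
    intro z hz
    simp only [A, B, Finset.mem_union, Finset.mem_image] at hz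
    rcases hz with ⟨x, hx, rfl⟩ | ⟨x, hx, rfl⟩
    · exact cons_mem (by constructor <;> omega) (by ring) hx
    · exact cons_mem (by constructor <;> omega) (by ring) hx
  have := Finset.card_le_card hsub
  rw [Finset.card_union_of_disjoint hAB, hA, hB] at this
  omega

/-- The three-dimensional base vector attached to `b` and `β`. -/
def base (b β : ℤ) : Fin 3 → ℤ := ![b - β + b * β, β + b * (b - β), b ^ 2 - 1]

theorem base_good {b β : ℤ} (hb : 2 < b) (hβ : 0 < β) (hβ' : β < b)
    (hco : IsCoprime (b ^ 2 - 1) (β + b * (b - β))) : good b (base b β) := by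
  intro x hx hs
  have hs' : (b - β + b * β) * x 0 + (β + b * (b - β)) * x 1 + (b ^ 2 - 1) * x 2 = 0 := by
    simpa [base, Fin.sum_univ_three] using hs
  -- divisibility
  have hd : (b ^ 2 - 1) ∣ (β + b * (b - β)) * (b * x 0 + x 1) := by
    refine ⟨(b - β) * x 0 - x 2, ?_⟩
    linear_combination hs'
  have hd' : (b ^ 2 - 1) ∣ (b * x 0 + x 1) := hco.dvd_of_dvd_mul_left hd
  obtain ⟨p, hp⟩ := hd'
  -- x 0 = b p + q, x 1 = -(p + b q)
  have hpos : (0 : ℤ) < b ^ 2 - 1 := by nlinarith
  obtain ⟨q, hq⟩ : ∃ q, x 0 = b * p + q := ⟨x 0 - b * p, by ring⟩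
  have hx1 : x 1 = -(p + b * q) := by
    have : x 1 = (b ^ 2 - 1) * p - b * x 0 := by linarith
    rw [this, hq]; ring
  have hx2 : x 2 = -β * p + (b - β) * q := by
    have h3 : (b ^ 2 - 1) * (x 2 - (-β * p + (b - β) * q)) = 0 := by
      have := hs'
      rw [hq, hx1] at this
      linear_combination this
    rcases mul_eq_zero.mp h3 with h | h
    · omega
    · linarith
  have a0 := abs_lt.mp (hx 0)
  have a1 := abs_lt.mp (hx 1)
  have a2 := abs_lt.mp (hx 2)
  rw [hq] at a0
  rw [hx1] at a1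
  rw [hx2] at a2
  have hpq : p = 0 ∧ q = 0 := by
    rcases lt_trichotomy p 0 with h | h | h
    · exfalso
      rcases lt_trichotomy q 0 with h' | h' | h'
      · nlinarith
      · subst h'; nlinarith
      · nlinarith
    · subst h
      refine ⟨rfl, ?_⟩
      rcases lt_trichotomy q 0 with h' | h' | h'
      · exfalso; nlinarith
      · exact h'
      · exfalso; nlinarith
    · exfalso
      rcases lt_trichotomy q 0 with h' | h' | h'
      · nlinarith
      · subst h'; nlinarith
      · nlinarith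
  obtain ⟨rfl, rfl⟩ := hpq
  funext i
  fin_cases i
  · simpa using hq
  · simpa using hx1
  · simpa using hx2

theorem base_zero {b β : ℤ} (hb : 2 < b) (hβ : 0 < β) (hβ' : β < b) :
    7 ≤ (sols b (base b β) 0).card := by
  classical
  let T : Finset (Fin 3 → ℤ) :=
    {![0, 0, 0], ![b, -1, -β], ![-b, 1, β], ![1, -b, b - β], ![-1, b, -(b - β)],
      ![b - 1, b - 1, -b], ![-(b - 1), -(b - 1), b]}
  have hT : T ⊆ sols b (base b β) 0 := by
    intro x hx
    simp only [T, Finset.mem_insert, Finset.mem_singleton] at hx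
    rw [mem_sols]
    rcases hx with rfl | rfl | rfl | rfl | rfl | rfl | rfl <;>
    · refine ⟨?_, ?_⟩
      · intro i
        fin_cases i <;> (simp; try constructor) <;> omega
      · simp [base, Fin.sum_univ_three]
        try ring
  have hc : T.card = 7 := by
    simp only [T]
    rw [Finset.card_insert_of_notMem, Finset.card_insert_of_notMem,
      Finset.card_insert_of_notMem, Finset.card_insert_of_notMem,
      Finset.card_insert_of_notMem, Finset.card_insert_of_notMem, Finset.card_singleton]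
    all_goals
      intro h
      simp only [Finset.mem_insert, Finset.mem_singleton] at h
      repeat' (rcases h with h | h)
    all_goals
      have h1 := congrFun h 1
      simp at h1 <;> omega
  calc 7 = T.card := hc.symm
    _ ≤ _ := Finset.card_le_card hT

theorem base_u {b β : ℤ} (hb : 2 < b) (hβ : 0 < β) (hβ' : β < b) :
    6 ≤ (sols b (base b β) (b ^ 2 - 1)).card := by
  classical
  let T : Finset (Fin 3 → ℤ) :=
    {![0, 0, 1], ![b, -1, 1 - β], ![-b, 1, 1 + β], ![1, -b, 1 + (b - β)],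
      ![-1, b, 1 - (b - β)], ![b - 1, b - 1, 1 - b]}
  have hT : T ⊆ sols b (base b β) (b ^ 2 - 1) := by
    intro x hx
    simp only [T, Finset.mem_insert, Finset.mem_singleton] at hx
    rw [mem_sols]
    rcases hx with rfl | rfl | rfl | rfl | rfl | rfl <;>
    · refine ⟨?_, ?_⟩
      · intro i
        fin_cases i <;> (simp; try constructor) <;> omega
      · simp [base, Fin.sum_univ_three]
        try ring
  have hc : T.card = 6 := by
    simp only [T]
    rw [Finset.card_insert_of_notMem, Finset.card_insert_of_notMem,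
      Finset.card_insert_of_notMem, Finset.card_insert_of_notMem,
      Finset.card_insert_of_notMem, Finset.card_singleton]
    all_goals
      intro h
      simp only [Finset.mem_insert, Finset.mem_singleton] at h
      repeat' (rcases h with h | h)
    all_goals
      have h1 := congrFun h 1
      simp at h1 <;> omega
  calc 6 = T.card := hc.symm
    _ ≤ _ := Finset.card_le_card hT

/-- For every `b ≥ 3` a suitable `β` exists. -/
theorem exists_beta {b : ℤ} (hb : 2 < b) :
    ∃ β : ℤ, 0 < β ∧ β < b ∧ IsCoprime (b ^ 2 - 1) (β + b * (b - β)) := by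
  rcases Int.even_or_odd' b with ⟨c, rfl | rfl⟩
  · refine ⟨c - 1, by omega, by omega, ?_⟩
    have e1 : ((2 * c) ^ 2 - 1 : ℤ) = (2 * c - 1) * (2 * c + 1) := by ring
    have e2 : (c - 1 + 2 * c * (2 * c - (c - 1)) : ℤ) = 2 * c ^ 2 + 3 * c - 1 := by ring
    rw [e1, e2]
    apply IsCoprime.mul_left
    · exact ⟨-(c + 2), 1, by ring⟩
    · exact ⟨1 - c * (c + 1), c, by ring⟩
  · refine ⟨c, by omega, by omega, ?_⟩
    have e1 : ((2 * c + 1) ^ 2 - 1 : ℤ) = 2 * (2 * (c * (c + 1))) := by ring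
    have e2 : (c + (2 * c + 1) * (2 * c + 1 - c) : ℤ) = 2 * c ^ 2 + 4 * c + 1 := by ring
    rw [e1, e2]
    have h2 : IsCoprime (2 : ℤ) (2 * c ^ 2 + 4 * c + 1) := ⟨-(c ^ 2 + 2 * c), 1, by ring⟩
    apply IsCoprime.mul_left h2
    apply IsCoprime.mul_left h2
    apply IsCoprime.mul_left
    · exact ⟨-(2 * c + 4), 1, by ring⟩
    · exact ⟨2 * (c + 1), -1, by ring⟩

/-- The two Pell-type sequences. -/
noncomputable def P (n : ℕ) : ℝ := ((1 + Real.sqrt 2) ^ n + (1 - Real.sqrt 2) ^ n) / 2

noncomputable def Q (n : ℕ) : ℝ :=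
  ((1 + Real.sqrt 2) ^ n - (1 - Real.sqrt 2) ^ n) / (2 * Real.sqrt 2)

theorem two_Q (n : ℕ) :
    2 * Q n = Real.sqrt 2 * ((1 + Real.sqrt 2) ^ n - (1 - Real.sqrt 2) ^ n) / 2 := by
  have h : Real.sqrt 2 * Real.sqrt 2 = 2 := Real.mul_self_sqrt (by norm_num)
  have h0 : Real.sqrt 2 ≠ 0 := by
    intro h'; rw [h'] at h; norm_num at h
  unfold Q
  field_simp
  rw [Real.sq_sqrt (by norm_num)]

theorem P_succ (n : ℕ) : P (n + 1) = P n + 2 * Q n := by
  rw [two_Q]; unfold P; ring

theorem Q_succ (n : ℕ) : Q (n + 1) = P n + Q n := by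
  have h : Real.sqrt 2 * Real.sqrt 2 = 2 := Real.mul_self_sqrt (by norm_num)
  have h0 : Real.sqrt 2 ≠ 0 := by
    intro h'; rw [h'] at h; norm_num at h
  unfold P Q
  field_simp
  ring

theorem P_three : P 3 = 7 := by
  have h : Real.sqrt 2 ^ 2 = 2 := Real.sq_sqrt (by norm_num)
  have : P 3 = 1 + 3 * Real.sqrt 2 ^ 2 := by unfold P; ring
  rw [this, h]; norm_num

theorem Q_three : Q 3 = 5 := by
  have h : Real.sqrt 2 ^ 2 = 2 := Real.sq_sqrt (by norm_num)
  have h0 : Real.sqrt 2 ≠ 0 := by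
    intro h'; rw [h'] at h; norm_num at h
  have : Q 3 = 3 + Real.sqrt 2 ^ 2 := by
    unfold Q; field_simp; ring
  rw [this, h]; norm_num

/-- The inductive construction. -/
theorem main_induction {b : ℤ} (hb : 2 < b) (m : ℕ) :
    ∃ v : Fin (m + 3) → ℤ, good b v ∧
      (P (m + 3) ≤ ((sols b v 0).card : ℝ)) ∧ (1 ≤ m → P (m + 3) < ((sols b v 0).card : ℝ)) ∧
      (Q (m + 3) < ((sols b v (b ^ 2 - 1)).card : ℝ)) := by
  have hu : IsCoprime b (b ^ 2 - 1) := ⟨b, -1, by ring⟩
  induction m with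
  | zero =>
    obtain ⟨β, h1, h2, h3⟩ := exists_beta hb
    refine ⟨base b β, base_good hb h1 h2 h3, ?_, by simp, ?_⟩
    · have h := base_zero hb h1 h2
      have h' : (7 : ℝ) ≤ ((sols b (base b β) 0).card : ℝ) := by exact_mod_cast h
      simpa [P_three] using h'
    · have h := base_u hb h1 h2
      have h' : (6 : ℝ) ≤ ((sols b (base b β) (b ^ 2 - 1)).card : ℝ) := by exact_mod_cast h
      have h5 : Q (0 + 3) = 5 := by simpa using Q_three
      rw [h5]; linarith
  | succ m ih =>
    obtain ⟨v, hv, hP, _, hQ⟩ := ih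
    refine ⟨ext b (b ^ 2 - 1) v, good_ext (by omega) hu hv, ?_, ?_, ?_⟩
    · have h := step_zero (u := b ^ 2 - 1) hb v
      have h' : ((sols b v 0).card : ℝ) + 2 * ((sols b v (b ^ 2 - 1)).card : ℝ)
          ≤ ((sols b (ext b (b ^ 2 - 1) v) 0).card : ℝ) := by exact_mod_cast h
      have e : P (m + 1 + 3) = P (m + 3) + 2 * Q (m + 3) := by
        rw [show m + 1 + 3 = (m + 3) + 1 by ring, P_succ]
      rw [e]; linarith
    · intro _
      have h := step_zero (u := b ^ 2 - 1) hb v
      have h' : ((sols b v 0).card : ℝ) + 2 * ((sols b v (b ^ 2 - 1)).card : ℝ)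
          ≤ ((sols b (ext b (b ^ 2 - 1) v) 0).card : ℝ) := by exact_mod_cast h
      have e : P (m + 1 + 3) = P (m + 3) + 2 * Q (m + 3) := by
        rw [show m + 1 + 3 = (m + 3) + 1 by ring, P_succ]
      rw [e]; linarith
    · have h := step_u (u := b ^ 2 - 1) hb v
      have h' : ((sols b v 0).card : ℝ) + ((sols b v (b ^ 2 - 1)).card : ℝ)
          ≤ ((sols b (ext b (b ^ 2 - 1) v) (b ^ 2 - 1)).card : ℝ) := by exact_mod_cast h
      have e : Q (m + 1 + 3) = P (m + 3) + Q (m + 3) := by
        rw [show m + 1 + 3 = (m + 3) + 1 by ring, Q_succ]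
      rw [e]; linarith

/-- For every `k ≥ 2` and every `n ≥ 4` there is a hyperplane of `ℝ^n` meeting `{-k,…,k}^n` only in
the origin and meeting `{-(k+1),…,k+1}^n` in more than `P_n` points. -/
theorem result :
    ∀ k : ℕ, 2 ≤ k → ∀ n : ℕ, 4 ≤ n →
      ∃ a : Fin n → ℝ, a ≠ 0 ∧
        (∀ x : Fin n → ℤ, (∀ i, |x i| ≤ (k : ℤ)) → ∑ i, a i * (x i : ℝ) = 0 → x = 0) ∧
        ((1 + Real.sqrt 2) ^ n + (1 - Real.sqrt 2) ^ n) / 2 <
          (((Fintype.piFinset fun _ : Fin n => Finset.Icc (-((k : ℤ) + 1)) ((k : ℤ) + 1)).filter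
              (fun x => ∑ i, a i * (x i : ℝ) = 0)).card : ℝ) := by
  intro k hk n hn
  obtain ⟨m, rfl⟩ : ∃ m, n = m + 3 := ⟨n - 3, by omega⟩
  have hb : (2 : ℤ) < (k : ℤ) + 1 := by omega
  obtain ⟨v, hv, _, hP, _⟩ := main_induction hb m
  have hP' := hP (by omega)
  have hcast : ∀ x : Fin (m + 3) → ℤ,
      ∑ i, (fun i => (v i : ℝ)) i * (x i : ℝ) = ((∑ i, v i * x i : ℤ) : ℝ) := by
    intro x; push_cast; rfl
  refine ⟨fun i => (v i : ℝ), ?_, ?_, ?_⟩
  · intro hz
    have hv0 : ∀ i, v i = 0 := by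
      intro i
      have h' : (v i : ℝ) = 0 := congrFun hz i
      exact_mod_cast h'
    have h1 := hv (fun _ => 1) (fun i => by simp; omega) (by simp [hv0])
    have := congrFun h1 0
    simp at this
  · intro x hx hs
    rw [hcast] at hs
    refine hv x (fun i => ?_) (by exact_mod_cast hs)
    have := hx i
    omega
  · have heq : (Fintype.piFinset fun _ : Fin (m + 3) =>
        Finset.Icc (-((k : ℤ) + 1)) ((k : ℤ) + 1)).filter
          (fun x => ∑ i, (fun i => (v i : ℝ)) i * (x i : ℝ) = 0) = sols ((k : ℤ) + 1) v 0 := by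
      unfold sols
      apply Finset.filter_congr
      intro x _
      rw [hcast]
      exact_mod_cast Iff.rfl
    rw [heq]
    exact hP'

end Pool.Agent.Results.MP_e67bad_co.AllDimensions
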